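import Pool.Agent.Y571.NX.D

/-!
# Project NX: recurrence in dimensions one and two, without the definition of the walk
-/

set_option autoImplicit false

open MeasureTheory ProbabilityTheory
open scoped ENNReal

namespace Pool.Agent.Y65.NX

open Pool.Agent.Y571.NX

section cons

variable {S : Type} [MeasurableSpace S]

/-- Prepend a step. -/
def cns (s : S) (u : ℕ → S) : ℕ → S := fun n => Nat.casesOn n s u

lemma meas_cns : Measurable (fun p : S × (ℕ → S) => cns p.1 p.2) := by
  apply measurable_pi_lambda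
  intro n
  cases n with
  | zero => exact measurable_fst
  | succ n => exact (measurable_pi_apply n).comp measurable_snd

lemma map_cns (ν : Measure S) [IsProbabilityMeasure ν] :
    (ν.prod (Measure.infinitePi fun _ : ℕ => ν)).map (fun p => cns p.1 p.2) =
      Measure.infinitePi fun _ : ℕ => ν := by
  refine Measure.eq_infinitePi _ (fun s t ht => ?_)
  rw [Measure.map_apply meas_cns (MeasurableSet.pi s.countable_toSet (fun _ _ => ht _))]
  classical
  set s1 : Finset ℕ := s.preimage (fun i => i + 1) (Function.Injective.injOn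
    (add_left_injective 1)) with hs1
  have hpre : (fun p : S × (ℕ → S) => cns p.1 p.2) ⁻¹' ((s : Set ℕ).pi t)
      = (if 0 ∈ s then t 0 else Set.univ) ×ˢ ((s1 : Set ℕ).pi (fun i => t (i + 1))) := by
    ext ⟨a, u⟩
    simp only [Set.mem_preimage, Set.mem_pi, Set.mem_prod, hs1]
    constructor
    · intro h
      refine ⟨?_, ?_⟩
      · split_ifs with h0
        · exact h 0 h0
        · trivial
      · intro i hi
        have hi' : i + 1 ∈ s := by simpa using hi
        exact h (i + 1) hi'
    · rintro ⟨h0, h1⟩ i hi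
      cases i with
      | zero =>
        have h0s : (0 : ℕ) ∈ s := hi
        rw [if_pos h0s] at h0
        exact h0
      | succ i => exact h1 i (by simpa using hi)
  rw [hpre, Measure.prod_prod, Measure.infinitePi_pi _ (fun i _ => ht (i + 1))]
  have hs : ∏ i ∈ s, ν (t i) = (if 0 ∈ s then ν (t 0) else 1)
      * ∏ i ∈ s1, ν (t (i + 1)) := by
    have hdec : s = (if 0 ∈ s then {0} else ∅) ∪ s1.map ⟨fun i => i + 1, add_left_injective 1⟩ := by
      ext i
      simp only [Finset.mem_union, Finset.mem_map, hs1, Finset.mem_preimage,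
        Function.Embedding.coeFn_mk]
      cases i with
      | zero =>
        split_ifs with h0 <;> simp [h0]
      | succ i =>
        constructor
        · intro h; right; exact ⟨i, h, rfl⟩
        · rintro (h | ⟨j, hj, hji⟩)
          · split_ifs at h <;> simp at h
          · rwa [← hji]
    have hdisj : Disjoint (if 0 ∈ s then ({0} : Finset ℕ) else ∅)
        (s1.map ⟨fun i => i + 1, add_left_injective 1⟩) := by
      split_ifs with h0
      · rw [Finset.disjoint_singleton_left]
        simp
      · simp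
    conv_lhs => rw [hdec]
    rw [Finset.prod_union hdisj, Finset.prod_map]
    congr 1
    split_ifs <;> simp
  rw [hs]
  congr 1
  split_ifs <;> simp

end cons

section law

variable {d : ℕ}

lemma two_d_ne (hd : 1 ≤ d) : (2 * (d : ℝ≥0∞)) ≠ 0 := by
  have : (d : ℝ≥0∞) ≠ 0 := by exact_mod_cast (by omega : d ≠ 0)
  exact mul_ne_zero two_ne_zero this

lemma two_d_top : (2 * (d : ℝ≥0∞)) ≠ ∞ := by
  have : (2 * (d : ℝ≥0∞)) = ((2 * d : ℕ) : ℝ≥0∞) := by push_cast; rfl
  rw [this]
  exact ENNReal.natCast_ne_top _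

lemma prob_lawD (hd : 1 ≤ d) : IsProbabilityMeasure (lawD d) := by
  constructor
  unfold lawD
  rw [Measure.smul_apply, smul_eq_mul, ← Finset.coe_univ, Measure.count_apply_finset]
  have e : ((Finset.univ : Finset (Fin d × Bool)).card : ℝ≥0∞) = 2 * (d : ℝ≥0∞) := by
    rw [Finset.card_univ, Fintype.card_prod, Fintype.card_fin, Fintype.card_bool]
    push_cast
    ring
  rw [e]
  exact ENNReal.inv_mul_cancel (two_d_ne hd) two_d_top

lemma lawD_singleton (s : Fin d × Bool) : lawD d {s} = (2 * (d : ℝ≥0∞))⁻¹ := by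
  unfold lawD
  rw [Measure.smul_apply, smul_eq_mul, Measure.count_singleton, mul_one]

/-- the law of the stream -/
noncomputable def QD (d : ℕ) : Measure (ℕ → Fin d × Bool) := Measure.infinitePi fun _ : ℕ => lawD d

lemma QD_apply (hd : 1 ≤ d) {E : Set (ℕ → Fin d × Bool)} (hE : MeasurableSet E) :
    QD d E = (2 * (d : ℝ≥0∞))⁻¹ * ∑ s : Fin d × Bool, QD d {u | cns s u ∈ E} := by
  have hp := prob_lawD hd
  have hq : IsProbabilityMeasure (QD d) := by unfold QD; infer_instance
  have h1 : QD d E = ((lawD d).prod (QD d)) {p | cns p.1 p.2 ∈ E} := by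
    have h2 := map_cns (lawD d)
    have h3 : QD d E = ((lawD d).prod (QD d)).map (fun p => cns p.1 p.2) E := by
      unfold QD
      rw [h2]
    rw [h3, Measure.map_apply meas_cns hE]
    rfl
  have h4 : MeasurableSet {p : (Fin d × Bool) × (ℕ → Fin d × Bool) | cns p.1 p.2 ∈ E} :=
    meas_cns hE
  rw [h1, Measure.prod_apply h4, lintegral_fintype, Finset.mul_sum]
  refine Finset.sum_congr rfl (fun s _ => ?_)
  rw [lawD_singleton, mul_comm]
  rfl

lemma SD_zero (u : ℕ → Fin d × Bool) : SD 0 u = 0 := by simp [SD]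

lemma SD_cns (n : ℕ) (s : Fin d × Bool) (u : ℕ → Fin d × Bool) :
    SD (n + 1) (cns s u) = vecD s + SD n u := by
  unfold SD
  rw [Finset.sum_range_succ', add_comm]
  rfl

lemma meas_SD (n : ℕ) : Measurable (SD (d := d) n) := by
  unfold SD
  refine Finset.measurable_fun_sum _ (fun i _ => ?_)
  exact (measurable_of_finite vecD).comp (measurable_pi_apply i)

/-- the event of hitting `y` -/
def Hit (y z : Fin d → ℤ) : Set (ℕ → Fin d × Bool) := {u | ∃ n, z + SD n u = y}

lemma meas_Hit (y z : Fin d → ℤ) : MeasurableSet (Hit y z) := by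
  have e : Hit y z = ⋃ n, (fun u => z + SD n u) ⁻¹' {y} := by
    ext u
    simp [Hit]
  rw [e]
  exact MeasurableSet.iUnion fun n => ((meas_SD n).const_add z) (measurableSet_singleton y)

lemma Hit_step (y z : Fin d → ℤ) (hz : z ≠ y) (s : Fin d × Bool) :
    {u | cns s u ∈ Hit y z} = Hit y (z + vecD s) := by
  ext u
  simp only [Hit, Set.mem_ofPred_eq]
  constructor
  · rintro ⟨n, hn⟩
    rcases n with _ | n
    · exfalso
      rw [SD_zero, add_zero] at hn
      exact hz hn
    · refine ⟨n, ?_⟩
      rw [SD_cns, ← add_assoc] at hn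
      exact hn
  · rintro ⟨n, hn⟩
    refine ⟨n + 1, ?_⟩
    rw [SD_cns, ← add_assoc]
    exact hn

lemma hit_all (h : S_RECA) (hd : 1 ≤ d) (hd2 : d ≤ 2) (y z : Fin d → ℤ) : QD d (Hit y z) = 1 := by
  have hp := prob_lawD hd
  have hq : IsProbabilityMeasure (QD d) := by unfold QD; infer_instance
  have hdr : (0 : ℝ) < 2 * (d : ℝ) := by
    have : (1 : ℝ) ≤ d := by exact_mod_cast hd
    linarith
  have key := h d hd hd2 y (fun z => 1 - (QD d (Hit y z)).toReal) (by
      intro z
      have h1 : (QD d (Hit y z)).toReal ≤ 1 := by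
        have := ENNReal.toReal_mono ENNReal.one_ne_top (prob_le_one (μ := QD d) (s := Hit y z))
        simpa using this
      have h2 : 0 ≤ (QD d (Hit y z)).toReal := ENNReal.toReal_nonneg
      exact ⟨by linarith, by linarith⟩) (by
      have e : Hit y y = Set.univ := by
        ext u
        simp only [Hit, Set.mem_ofPred_eq, Set.mem_univ, iff_true]
        exact ⟨0, by rw [SD_zero, add_zero]⟩
      rw [e, measure_univ]
      simp) (by
      intro z hz
      have e1 := QD_apply hd (meas_Hit y z)
      simp only [Hit_step y z hz] at e1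
      rw [e1, ENNReal.toReal_mul, ENNReal.toReal_sum (fun s _ => measure_ne_top _ _),
        Finset.sum_sub_distrib]
      have e2 : ((2 * (d : ℝ≥0∞))⁻¹).toReal = (2 * (d : ℝ))⁻¹ := by
        rw [ENNReal.toReal_inv, ENNReal.toReal_mul]
        simp
      have e3 : ∑ _s : Fin d × Bool, (1 : ℝ) = 2 * (d : ℝ) := by
        rw [Finset.sum_const, Finset.card_univ, Fintype.card_prod, Fintype.card_fin,
          Fintype.card_bool]
        simp
        ring
      rw [e2, e3, mul_sub, inv_mul_cancel₀ hdr.ne'])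
  have h1 := key z
  have h2 : (QD d (Hit y z)).toReal = 1 := by linarith
  rw [← ENNReal.toReal_eq_one_iff]
  exact h2

lemma vecD_inj : Function.Injective (vecD (d := d)) := by
  rintro ⟨i, a⟩ ⟨j, b⟩ h
  have h1 := congrFun h i
  unfold vecD at h1
  simp only [Pi.single_eq_same] at h1
  have hij : i = j := by
    by_contra hne
    rw [Pi.single_eq_of_ne hne] at h1
    split_ifs at h1 <;> omega
  subst hij
  rw [Pi.single_eq_same] at h1
  have hab : a = b := by
    cases a <;> cases b <;> simp at h1 <;> rfl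
  rw [hab]

end law

theorem recb0 (h : S_RECA) (d : ℕ) (hd : 1 ≤ d) (hd2 : d ≤ 2) (Ω : Type) [MeasurableSpace Ω]
    (P : Measure Ω) [IsProbabilityMeasure P] (x y : Fin d → ℤ) (X : ℕ → Ω → Fin d → ℤ)
    (hX : (∀ n, Measurable (X n)) ∧ (∀ ω, X 0 ω = x) ∧
      iIndepFun (fun n ω => X (n + 1) ω - X n ω) P ∧
      ∀ n (i : Fin d), P {ω | X (n + 1) ω - X n ω = Pi.single i 1} = 1 / (2 * (d : ℝ≥0∞)) ∧
        P {ω | X (n + 1) ω - X n ω = Pi.single i (-1)} = 1 / (2 * (d : ℝ≥0∞))) :
    ∀ᵐ ω ∂P, ∃ n, X n ω = y := by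
  classical
  obtain ⟨hm, h0, hind, hlaw⟩ := hX
  have hp := prob_lawD hd
  have hq : IsProbabilityMeasure (QD d) := by unfold QD; infer_instance
  obtain ⟨D, hD⟩ : ∃ D : ℕ → Ω → Fin d → ℤ, D = fun n ω => X (n + 1) ω - X n ω := ⟨_, rfl⟩
  have hDm : ∀ n, Measurable (D n) := by
    intro n
    rw [hD]
    exact (hm (n + 1)).sub (hm n)
  have hvec : Measurable (vecD (d := d)) := measurable_of_finite _
  have hsing : ∀ n (s : Fin d × Bool), P (D n ⁻¹' {vecD s}) = (2 * (d : ℝ≥0∞))⁻¹ := by
    rintro n ⟨i, b⟩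
    have h1 := hlaw n i
    rw [one_div] at h1
    cases b
    · have e : D n ⁻¹' {vecD (i, false)} = {ω | X (n + 1) ω - X n ω = Pi.single i (-1)} := by
        rw [hD]
        rfl
      rw [e]
      exact h1.2
    · have e : D n ⁻¹' {vecD (i, true)} = {ω | X (n + 1) ω - X n ω = Pi.single i 1} := by
        rw [hD]
        rfl
      rw [e]
      exact h1.1
  have hmap : ∀ n, P.map (D n) = (lawD d).map vecD := by
    intro n
    have hp1 : IsProbabilityMeasure (P.map (D n)) :=
      Measure.isProbabilityMeasure_map (hDm n).aemeasurable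
    have hp2 : IsProbabilityMeasure ((lawD d).map vecD) :=
      Measure.isProbabilityMeasure_map hvec.aemeasurable
    symm
    apply Measure.eq_of_le_of_measure_univ_eq
    · refine Measure.le_iff.2 fun E hE => ?_
      rw [Measure.map_apply hvec hE, Measure.map_apply (hDm n) hE]
      obtain ⟨F, hF⟩ : ∃ F : Finset (Fin d × Bool), F = Finset.univ.filter (fun s => vecD s ∈ E) :=
        ⟨_, rfl⟩
      have e1 : vecD ⁻¹' E = (F : Set (Fin d × Bool)) := by
        ext s
        rw [hF]
        simp
      have e2 : lawD d (vecD ⁻¹' E) = ∑ s ∈ F, P (D n ⁻¹' {vecD s}) := by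
        rw [e1]
        unfold lawD
        rw [Measure.smul_apply, smul_eq_mul, Measure.count_apply_finset,
          Finset.sum_congr rfl (fun s _ => hsing n s), Finset.sum_const, nsmul_eq_mul, mul_comm]
      have e3 : ∑ s ∈ F, P (D n ⁻¹' {vecD s}) = ∑ v ∈ F.image vecD, P (D n ⁻¹' {v}) := by
        rw [Finset.sum_image (fun a _ b _ hab => vecD_inj hab)]
      rw [e2, e3, sum_measure_preimage_singleton _
        (fun v _ => hDm n (measurableSet_singleton v))]
      apply measure_mono
      intro ω hω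
      simp only [Set.mem_preimage, Finset.coe_image, Set.mem_image, Finset.mem_coe] at hω
      obtain ⟨s, hs, hs2⟩ := hω
      rw [hF, Finset.mem_filter] at hs
      rw [Set.mem_preimage, ← hs2]
      exact hs.2
    · rw [measure_univ, measure_univ]
  have hseq : P.map (fun ω n => D n ω) = (QD d).map (fun u n => vecD (u n)) := by
    have h1 : iIndepFun D P := by
      rw [hD]
      exact hind
    rw [iIndepFun_iff_map_fun_eq_infinitePi_map hDm] at h1
    rw [h1]
    simp only [hmap]
    unfold QD
    exact (Measure.infinitePi_map_pi _ (fun _ => hvec)).symm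
  have hA : MeasurableSet {w : ℕ → Fin d → ℤ | ∃ n, x + ∑ i ∈ Finset.range n, w i = y} := by
    have e : {w : ℕ → Fin d → ℤ | ∃ n, x + ∑ i ∈ Finset.range n, w i = y} =
        ⋃ n, (fun w : ℕ → Fin d → ℤ => x + ∑ i ∈ Finset.range n, w i) ⁻¹' {y} := by
      ext w
      simp
    rw [e]
    refine MeasurableSet.iUnion fun n => ?_
    have hmn : Measurable (fun w : ℕ → Fin d → ℤ => x + ∑ i ∈ Finset.range n, w i) :=
      (Finset.measurable_fun_sum _ (fun i _ => measurable_pi_apply i)).const_add x
    exact hmn (measurableSet_singleton y)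
  have hv : Measurable (fun (u : ℕ → Fin d × Bool) n => vecD (u n)) :=
    measurable_pi_lambda _ fun n => hvec.comp (measurable_pi_apply n)
  have hDs : Measurable (fun ω n => D n ω) := measurable_pi_lambda _ fun n => hDm n
  have g1 : ∀ᵐ u ∂(QD d), ∃ n, x + ∑ i ∈ Finset.range n, vecD (u i) = y := by
    have h1 := hit_all h hd hd2 y x
    have h2 : ∀ᵐ u ∂(QD d), u ∈ Hit y x := (prob_compl_eq_zero_iff (meas_Hit y x)).2 h1
    exact h2
  have g2 : ∀ᵐ w ∂((QD d).map (fun u n => vecD (u n))),
      w ∈ {w : ℕ → Fin d → ℤ | ∃ n, x + ∑ i ∈ Finset.range n, w i = y} := by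
    exact (ae_map_iff (p := fun w => w ∈ {w : ℕ → Fin d → ℤ | ∃ n, x + ∑ i ∈ Finset.range n, w i = y})
      hv.aemeasurable hA).2 g1
  rw [← hseq] at g2
  have g3 := (ae_map_iff (p := fun w => w ∈ {w : ℕ → Fin d → ℤ |
    ∃ n, x + ∑ i ∈ Finset.range n, w i = y}) hDs.aemeasurable hA).1 g2
  filter_upwards [g3] with ω hω
  obtain ⟨n, hn⟩ := hω
  refine ⟨n, ?_⟩
  rw [← hn, hD]
  simp only
  rw [Finset.sum_range_sub (fun i => X i ω), h0]
  abel

end Pool.Agent.Y65.NX
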