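import Pool.Agent.Y571.NX.Stm
import Pool.Agent.Y65.NX.Recb0

/-!
# Project NX: recurrence in dimensions one and two
-/

set_option autoImplicit false

namespace Pool.Agent.Y65.NX

theorem recb (h : Pool.Agent.Y571.NX.S_RECA) : Pool.Agent.Y571.NX.S_REC := by
  intro d hd hd2 Ω _ P _ x y X hX
  exact recb0 h d hd hd2 Ω P x y X hX

end Pool.Agent.Y65.NX
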